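import Pool.Agent.helper72.ODK.Spec

set_option autoImplicit false

namespace Pool.Agent.helper72.UP

open Finset

theorem BIW_exp (t : ℝ) (h0 : 0 ≤ t) (h1 : t ≤ 1 / 2) : Real.exp (-(2 * t)) ≤ 1 - t := by
  have h2 : 2 * t + 1 ≤ Real.exp (2 * t) := Real.add_one_le_exp _
  have h3 : Real.exp (-(2 * t)) * Real.exp (2 * t) = 1 := by
    rw [← Real.exp_add]
    simp
  have h4 : 0 < Real.exp (-(2 * t)) := Real.exp_pos _
  have h5 : 1 ≤ (1 - t) * (2 * t + 1) := by nlinarith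
  have h6 : (1 - t) * (2 * t + 1) ≤ (1 - t) * Real.exp (2 * t) := mul_le_mul_of_nonneg_left h2 (by linarith)
  have h7 : 1 ≤ (1 - t) * Real.exp (2 * t) := h5.trans h6
  calc Real.exp (-(2 * t)) = Real.exp (-(2 * t)) * 1 := by ring
    _ ≤ Real.exp (-(2 * t)) * ((1 - t) * Real.exp (2 * t)) := mul_le_mul_of_nonneg_left h7 h4.le
    _ = (1 - t) * (Real.exp (-(2 * t)) * Real.exp (2 * t)) := by ring
    _ = 1 - t := by rw [h3, mul_one]

theorem BIW : BIW_stmt := by
  intro b y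
  induction y with
  | zero =>
    intro _
    simp
  | succ y ih =>
    intro hy
    have ih' := ih (by omega)
    set m := b / 2 with hm
    have hb : 2 * m ≤ b := by omega
    have hrec : b.choose (m + (y + 1)) * (m + y + 1) = b.choose (m + y) * (b - (m + y)) := by
      have := Nat.choose_succ_right_eq b (m + y)
      exact this
    have hrecR : (b.choose (m + (y + 1)) : ℝ) * ((m : ℝ) + y + 1) = (b.choose (m + y) : ℝ) * ((b - (m + y) : ℕ) : ℝ) := by
      exact_mod_cast hrec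
    have hsub : (m : ℝ) - y ≤ ((b - (m + y) : ℕ) : ℝ) := by
      have h1 : m ≤ (b - (m + y)) + y := by omega
      have h2 : (m : ℝ) ≤ ((b - (m + y) : ℕ) : ℝ) + y := by exact_mod_cast h1
      linarith
    have hm0 : (0 : ℝ) < (m : ℝ) + 1 := by positivity
    have hmy : (0 : ℝ) < (m : ℝ) + y + 1 := by positivity
    have hyR : 4 * ((y : ℝ) + 1) ≤ (m : ℝ) + 1 := by exact_mod_cast hy
    have hy0 : (0 : ℝ) ≤ (y : ℝ) := Nat.cast_nonneg _
    set t : ℝ := (2 * (y : ℝ) + 1) / ((m : ℝ) + y + 1) with ht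
    have ht0 : 0 ≤ t := by rw [ht]; positivity
    have ht1 : t ≤ 1 / 2 := by
      rw [ht, div_le_div_iff₀ hmy (by norm_num)]
      linarith
    have ht2 : t ≤ (2 * (y : ℝ) + 1) / ((m : ℝ) + 1) := by
      rw [ht]
      apply div_le_div_of_nonneg_left (by positivity) hm0
      linarith
    have hratio : Real.exp (-(2 * ((2 * (y : ℝ) + 1) / ((m : ℝ) + 1)))) ≤ 1 - t :=
      (Real.exp_le_exp.2 (by linarith)).trans (BIW_exp t ht0 ht1)
    have hone : (1 - t) * ((m : ℝ) + y + 1) = (m : ℝ) - y := by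
      rw [ht]
      field_simp
      ring
    have hexp : Real.exp (-(2 * (((y + 1 : ℕ)) : ℝ) ^ 2 / ((m : ℝ) + 1))) =
        Real.exp (-(2 * (y : ℝ) ^ 2 / ((m : ℝ) + 1))) * Real.exp (-(2 * ((2 * (y : ℝ) + 1) / ((m : ℝ) + 1)))) := by
      rw [← Real.exp_add]
      congr 1
      push_cast
      field_simp
      ring
    rw [hexp]
    have hc0 : (0 : ℝ) ≤ (b.choose (m + y) : ℝ) := Nat.cast_nonneg _
    have hstep : (b.choose (m + y) : ℝ) * (1 - t) ≤ (b.choose (m + (y + 1)) : ℝ) := by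
      have h1 : (b.choose (m + y) : ℝ) * (1 - t) * ((m : ℝ) + y + 1) ≤ (b.choose (m + (y + 1)) : ℝ) * ((m : ℝ) + y + 1) := by
        rw [hrecR, mul_assoc, hone]
        exact mul_le_mul_of_nonneg_left hsub hc0
      exact le_of_mul_le_mul_right h1 hmy
    calc (b.choose m : ℝ) * (Real.exp (-(2 * (y : ℝ) ^ 2 / ((m : ℝ) + 1))) * Real.exp (-(2 * ((2 * (y : ℝ) + 1) / ((m : ℝ) + 1)))))
        = ((b.choose m : ℝ) * Real.exp (-(2 * (y : ℝ) ^ 2 / ((m : ℝ) + 1)))) * Real.exp (-(2 * ((2 * (y : ℝ) + 1) / ((m : ℝ) + 1)))) := by ring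
      _ ≤ (b.choose (m + y) : ℝ) * Real.exp (-(2 * ((2 * (y : ℝ) + 1) / ((m : ℝ) + 1)))) :=
          mul_le_mul_of_nonneg_right ih' (Real.exp_pos _).le
      _ ≤ (b.choose (m + y) : ℝ) * (1 - t) := mul_le_mul_of_nonneg_left hratio hc0
      _ ≤ (b.choose (m + (y + 1)) : ℝ) := hstep

end Pool.Agent.helper72.UP
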